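import Pool.Agent.Work.MP_46fa68_19.Mk7
import Pool.Agent.Work.MP_46fa68_19.m7_13_6.K

/-! # MP_46fa68_co, full marked kernel m7_13_6: restriction and target -/

set_option autoImplicit false

set_option maxRecDepth 200000

namespace Pool.JM.MK.m7_13_6

open Finset Pool.EG

theorem hcs : ∀ k ≤ 12 + 1, ∀ C ∈ Lv 14 k, cd C ∈ cs k := by
  refine cs_all (W := 27) (by norm_num) cs hcs0 ?_
  intro k hk
  interval_cases k
  · exact hcl0
  · exact hcl1
  · exact hcl2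
  · exact hcl3
  · exact hcl4
  · exact hcl5
  · exact hcl6
  · exact hcl7
  · exact hcl8
  · exact hcl9
  · exact hcl10
  · exact hcl11
  · exact hcl12

theorem hG : ∀ k < 5 + 2, allL (cs (k + 1)) (chG 27 tG) = true := by
  intro k hk
  interval_cases k
  · exact hG0
  · exact hG1
  · exact hG2
  · exact hG3
  · exact hG4
  · exact hG5
  · exact hG6

theorem hsB : ∀ k, 5 + 1 ≤ k → k < 12 →
    allL (cs k) (chB 360360 27 (k + 1) (tB (k + 1)) (tD (k + 1)) (tB k)) = true := by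
  intro k hk1 hk2
  interval_cases k
  · exact hB6
  · exact hB7
  · exact hB8
  · exact hB9
  · exact hB10
  · exact hB11

theorem hsD : ∀ k, 5 + 1 ≤ k → k < 12 →
    allL (cs (k + 1)) (chD 360360 27 (k + 1) (tB (k + 1)) (tD (k + 1)) (tD k)) = true := by
  intro k hk1 hk2
  interval_cases k
  · exact hD6
  · exact hD7
  · exact hD8
  · exact hD9
  · exact hD10
  · exact hD11

theorem hL : ∀ r, 1 ≤ r → r ≤ 14 → r ∣ 360360 := by
  intro r h1 h2
  interval_cases r <;> decide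

theorem hr0 : 532479 = cd (Rw 14 (5 + 1)) := by
  decide +kernel

theorem hE : (∑ k ∈ Ico ((5 : ℕ) + 1) 12, (((56 : ℕ) : ℝ) * ((27 : ℕ) : ℝ) ^ 2 *
    (((k : ℝ) + 1) ^ 2 * k.factorial) + ((56 : ℕ) : ℝ) ^ 2 * ((k : ℝ) + 1)) / (2 ^ 112 : ℝ)) +
    (((56 : ℕ) : ℝ) * ((27 : ℕ) : ℝ) ^ 2 + ((56 : ℕ) : ℝ) ^ 2) * (((2 ^ 32 : ℕ) : ℝ) / (2 ^ 112 : ℝ)) ≤ 1 / 10 ^ 19 := by
  simp only [Finset.sum_Ico_eq_sum_range, Finset.sum_range_succ, Finset.sum_range_zero,
    Nat.factorial]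
  norm_num

end Pool.JM.MK.m7_13_6
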